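import Pool.Agent.H617R3.AP.Wide

/-!
# Largest progression-free sets: regular growth and equidistribution at almost all scales

For `k ≥ 3` let `r k N` be the largest size of a subset of `{1, ..., N}` without arithmetic
progressions of length `k` (`k = 3`: the function `r_3` of the question).

* (1) The dyadic scales at which the density `r k N / N` drops are few: telescoping, by
  subadditivity the density at the scales `2 ^ i` is decreasing, and by Behrend's theorem it is at
  least `exp (-4 √i)`.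
* (2) Outside a set of `N` of size `O(√(log x))` (sum of the reciprocals up to `x`), the function
  `r k` grows linearly around `N`, and each progression-free set of almost maximal size is
  equidistributed in all arithmetic progressions contained in `{1, ..., N}`: no progression
  can contain too much of it, as shorter intervals have the same density, and the complement of
  a progression is a union of few progressions.
* (3) Outside a set of `N` of upper logarithmic density at most `ε` the same is true in the much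
  wider window `N exp (± c √(log N))`.
-/

set_option autoImplicit false

open Finset

namespace Pool.Agent.Results.MP_0f71ae_nt.RegularGrowth

open Pool.Agent.H617R3.AP

open Classical in
theorem result (k : ℕ) (hk : 3 ≤ k) :
    -- (1) irregular dyadic scales are rare
    (∀ (K h : ℕ) (η : ℝ), 0 < η →
      (((range K).filter (fun i => (r k (2 ^ (i + h)) : ℝ) / 2 ^ (i + h) <
        (1 - η) * ((r k (2 ^ i) : ℝ) / 2 ^ i))).card : ℝ) ≤ 4 * h * √((K : ℝ) + h) / η) ∧
    -- (2) bounded ratios, all progressions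
    (∀ ε Λ : ℝ, 0 < ε → ε ≤ 1 → 1 ≤ Λ → ∃ (C : ℝ) (E : Set ℕ),
      (∀ x : ℕ, 2 ≤ x → ∑ N ∈ (Icc 1 x).filter (fun N => N ∈ E), (1 : ℝ) / N ≤
        C * √(Real.log x)) ∧
      ∀ N : ℕ, 1 ≤ N → N ∉ E →
        (∀ M : ℕ, (N : ℝ) ≤ Λ * M → (M : ℝ) ≤ Λ * N →
          |(r k M : ℝ) / r k N - (M : ℝ) / N| ≤ ε) ∧
        ∀ A : Finset ℕ, A ⊆ Icc 1 N → APFree k A → (1 - ε / 8) * r k N ≤ A.card →
          ∀ a q l : ℕ, 1 ≤ a → 1 ≤ q → a + q * l ≤ N + q →
            |(hits A a q l : ℝ) - A.card * ((l : ℝ) / N)| ≤ ε * A.card) ∧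
    -- (3) ratios up to `exp (c √(log N))`
    (∀ ε : ℝ, 0 < ε → ε ≤ 1 → ∃ (c C : ℝ) (E : Set ℕ), 0 < c ∧
      (∀ x : ℕ, 1 ≤ x → ∑ N ∈ (Icc 1 x).filter (fun N => N ∈ E), (1 : ℝ) / N ≤
        ε * Real.log x + C) ∧
      ∀ N : ℕ, 1 ≤ N → N ∉ E →
        (∀ M : ℕ, N * Real.exp (-(c * √(Real.log N))) ≤ M →
          (M : ℝ) ≤ N * Real.exp (c * √(Real.log N)) →
          |(r k M : ℝ) / r k N / ((M : ℝ) / N) - 1| ≤ ε) ∧
        ∀ A : Finset ℕ, A ⊆ Icc 1 N → APFree k A → (1 - ε / 8) * r k N ≤ A.card →
          ∀ a q l : ℕ, 1 ≤ a → 1 ≤ q → a + q * l ≤ N + q →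
            N * Real.exp (-(c * √(Real.log N))) ≤ l →
            (hits A a q l : ℝ) ≤ (1 + ε) * (A.card * ((l : ℝ) / N))) :=
  ⟨fun K h _ hη => part_one hk K h hη, fun _ _ h0 h1 hΛ => part_two hk h0 h1 hΛ,
    fun _ h0 h1 => part_three hk h0 h1⟩

end Pool.Agent.Results.MP_0f71ae_nt.RegularGrowth
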